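import Mathlib

set_option autoImplicit false

namespace Pool.Agent.H.MP_7d34d8_co

open Finset SimpleGraph

abbrev V := Fin 10

def nb : List ℕ := [512, 256, 192, 160, 896, 968, 932, 892, 754, 497]

def G : SimpleGraph V where
  Adj a b := (nb.getD a 0).testBit b = true
  symm := ⟨by decide⟩
  loopless := ⟨by decide⟩

instance : DecidableRel G.Adj := fun a b => inferInstanceAs (Decidable ((nb.getD a 0).testBit b = true))

def S (m : ℕ) : Finset V := univ.filter fun v => m.testBit v = true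

lemma mem_S {m : ℕ} {v : V} : v ∈ S m ↔ m.testBit v = true := by simp [S]

def Cn (B : Finset V) : Prop := (G.induce (B : Set V)).Preconnected

def CT : ℕ := 179769313486231590772930519078902473361797697894108132729209386389422182531680457047953067041625543491413188622045835042054232694668377771491144027267108870915769419700081712888607351712961284836790438615758234161467506393234721827285604365763205144829371313511325018355119799305320806914689830270365021045015

lemma ct0 : ∀ m < 1024, CT.testBit m = true → m = 0 ∨ ∃ v : V, m = 2 ^ v.1 ∨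
    ∃ u : V, 2 ^ v.1 ≤ m ∧ CT.testBit (m - 2 ^ v.1) = true ∧ (m - 2 ^ v.1).testBit u = true ∧
      G.Adj u v ∧ ∀ x : V, m.testBit x = ((m - 2 ^ v.1).testBit x || x == v) := by
  decide +kernel

lemma S_pow : ∀ v : V, S (2 ^ v.1) = {v} := by decide +kernel

lemma sing (v : V) : (G.induce ({v} : Set V)).Preconnected := fun a b => by
  obtain rfl : a = b := Subtype.ext (a.2.trans b.2.symm)
  rfl

lemma ct (m : ℕ) (h : m < 1024) (hm : CT.testBit m = true) : Cn (S m) := by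
  induction m using Nat.strong_induction_on with
  | _ m ih =>
    rcases ct0 m h hm with rfl | ⟨v, rfl | ⟨u, h1, h2, h3, h4, h5⟩⟩
    · have : S 0 = ∅ := by simp [S]
      rw [this]
      intro x
      exact absurd x.2 (by simp)
    · rw [S_pow, Cn, coe_singleton]
      exact sing v
    · have hp : 0 < 2 ^ v.1 := by positivity
      have e : (S m : Set V) = (S (m - 2 ^ v.1) : Set V) ∪ {v} := by
        ext x
        simp [mem_S, h5 x, or_comm]
      have hu : u ∈ (S (m - 2 ^ v.1) : Set V) := mem_S.2 h3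
      rw [Cn, e]
      exact (connected_induce_union (ih _ (by omega) (by omega) h2) (sing v) hu rfl h4).preconnected

def H0 : ℕ := 634134936313486520338360567809

def sp (m : ℕ) : ℕ := (m * 1239150146850664126585242625) &&& H0

def pk (c : V → ℕ) : ℕ := ∑ v, c v * 2048 ^ v.1

def bt (m : ℕ) (v : V) : ℕ := if m.testBit v then 1 else 0

lemma sp_eq : ∀ m < 1024, sp m = pk (bt m) := by decide +kernel

lemma bt_compl : ∀ m < 1024, ∀ v, bt (1023 - m) v + bt m v = 1 := by decide +kernel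

lemma sub_pow : ∀ m < 1024, ∀ o : V, m.testBit o = true → S (m - 2 ^ o.1) = (S m).erase o := by
  decide +kernel

noncomputable def dot (w : V → ℝ) (c : V → ℕ) : ℝ := ∑ v, c v * w v

lemma dot_bt (w : V → ℝ) (m : ℕ) : dot w (bt m) = ∑ v ∈ S m, w v := by
  simp [dot, bt, S, sum_filter]

def Good (w : V → ℝ) (z t : ℕ) (r : ℝ) : Prop :=
  ∃ c : V → ℕ, (∀ v, c v ≤ 2 * t) ∧ z = pk c ∧ dot w c ≤ r + t * ∑ v, w v

lemma good_pair (w : V → ℝ) {X Y : ℕ} (hX : X < 1024) (hY : Y < 1024) :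
    Good w (sp X + sp (1023 - Y)) 1 (∑ v ∈ S X, w v - ∑ v ∈ S Y, w v) := by
  refine ⟨fun v => bt X v + bt (1023 - Y) v, fun v => ?_, ?_, ?_⟩
  · have := bt_compl X hX v
    have := bt_compl Y hY v
    dsimp only
    omega
  · rw [sp_eq X hX, sp_eq _ (by omega)]
    simp [pk, add_mul, sum_add_distrib]
  · have h : dot w (fun v => bt X v + bt (1023 - Y) v) + dot w (bt Y) = dot w (bt X) + ∑ v, w v := by
      simp only [dot, ← sum_add_distrib]
      refine sum_congr rfl fun v _ => ?_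
      have : ((bt (1023 - Y) v : ℝ)) + bt Y v = 1 := by exact_mod_cast bt_compl Y hY v
      push_cast
      linear_combination w v * this
    rw [dot_bt, dot_bt] at h
    push_cast
    linarith

lemma Good.add {w : V → ℝ} {z t z' t' : ℕ} {r r' : ℝ} (h : Good w z t r) (h' : Good w z' t' r')
    (k : ℕ) : Good w (z + k * z') (t + k * t') (r + k * r') := by
  obtain ⟨c, h1, h2, h3⟩ := h
  obtain ⟨d, g1, g2, g3⟩ := h'
  refine ⟨fun v => c v + k * d v, fun v => ?_, ?_, ?_⟩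
  · nlinarith [h1 v, Nat.mul_le_mul_left k (g1 v)]
  · simp [h2, g2, pk, add_mul, sum_add_distrib, mul_sum, mul_assoc]
  · have : dot w (fun v => c v + k * d v) = dot w c + k * dot w d := by
      simp [dot, add_mul, sum_add_distrib, mul_sum, mul_assoc]
    rw [this]
    have := mul_le_mul_of_nonneg_left g3 (Nat.cast_nonneg (α := ℝ) k)
    push_cast
    linarith

lemma good_zero (w : V → ℝ) (t : ℕ) (hw : ∀ v, 0 ≤ w v) : Good w 0 t 0 :=
  ⟨0, by simp, by simp [pk], by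
    simp only [dot, Pi.zero_apply, Nat.cast_zero, zero_mul, sum_const_zero, zero_add]
    exact mul_nonneg (Nat.cast_nonneg _) (sum_nonneg fun v _ => hw v)⟩

def H1 : ℕ := 649354174785010196826481221436416

lemma digit (e : V → ℕ) (he : ∀ v, e v < 2048) (h : pk e &&& H1 = H1) (v : V) : 1024 ≤ e v := by
  have hb : ∀ v : V, H1.testBit (11 * v.1 + 10) = true := by decide +kernel
  have h1 := congrArg (fun x => x.testBit (11 * v.1 + 10)) h
  simp only [Nat.testBit_and, hb, Bool.and_true] at h1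
  rw [Nat.testBit_eq_decide_div_mod_eq, decide_eq_true_eq] at h1
  have e0 := he 0; have e1 := he 1; have e2 := he 2; have e3 := he 3; have e4 := he 4
  have e5 := he 5; have e6 := he 6; have e7 := he 7; have e8 := he 8; have e9 := he 9
  have : pk e = e 0 + e 1 * 2048 + e 2 * 2048 ^ 2 + e 3 * 2048 ^ 3 + e 4 * 2048 ^ 4 + e 5 * 2048 ^ 5
      + e 6 * 2048 ^ 6 + e 7 * 2048 ^ 7 + e 8 * 2048 ^ 8 + e 9 * 2048 ^ 9 := by
    simp [pk, Fin.sum_univ_succ]
    ring
  rw [this] at h1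
  clear this h hb he
  fin_cases v <;> simp at h1 ⊢ <;> omega

lemma Good.fin {w : V → ℝ} (hw : ∀ v, 0 ≤ w v) {z t : ℕ} {r : ℝ} (h : Good w z t r)
    (ht : t < 1024) (hz : (z + (1024 - t) * H0) &&& H1 = H1) : 0 ≤ r := by
  obtain ⟨c, h1, h2, h3⟩ := h
  have h0 : H0 = pk (fun _ => 1) := by decide +kernel
  have e : z + (1024 - t) * H0 = pk (fun v => c v + (1024 - t)) := by
    simp [h0, h2, pk, add_mul, sum_add_distrib, mul_sum]
  rw [e] at hz
  have := digit _ (fun v => by have := h1 v; omega) hz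
  have h4 : t * ∑ v, w v ≤ dot w c := by
    rw [mul_sum]
    refine sum_le_sum fun v _ => mul_le_mul_of_nonneg_right ?_ (hw v)
    have := this v
    exact_mod_cast (by omega : t ≤ c v)
  linarith

def look (cs k : ℕ) : ℕ := (cs >>> (110 * k)) % 1298074214633706907132624082305024

def cert (cs : ℕ) : ℕ → ℕ → ℕ → ℕ → ℕ
  | 0, d, z, t => bif Nat.blt t 1024 && Nat.beq ((z + (1024 - t) * H0) &&& H1) H1 then d else 0
  | k + 1, d, z, t => cert cs k (d / 512) (z + d % 16 * look cs (d / 16 % 32)) (t + d % 16)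

def inner (cs y : ℕ) : List ℕ → ℕ → ℕ
  | [], d => d
  | x :: l, d => inner cs y l (cert cs (d % 16) (d / 256) ((d / 16 % 16 + 1) * (x + y)) (d / 16 % 16 + 1))

def outer (cs : ℕ) (P : List ℕ) : List (ℕ × ℕ) → ℕ → ℕ
  | [], d => d
  | p :: l, d => outer cs P l
      (bif Nat.beq p.1 (2 ^ p.2) then d else inner cs (sp (1023 - (p.1 - 2 ^ p.2))) P d)

def bl : ℕ → ℕ → List (ℕ × ℕ)
  | 0, _ => []
  | a + 1, d => (d % 1024, d / 1024 % 16) :: bl a (d / 16384)

def part : List (ℕ × ℕ) → ℕ → Bool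
  | [], m => Nat.beq m 1023
  | p :: l, m => Nat.beq (m &&& p.1) 0 && Nat.blt p.1 1024 && Nat.blt p.2 10 && CT.testBit p.1 &&
      p.1.testBit p.2 && CT.testBit (p.1 - 2 ^ p.2) && part l (m ||| p.1)

def leaf (a cs d : ℕ) : Bool :=
  part (bl a d) 0 && Nat.blt 0 (outer cs ((bl a d).map fun p => sp p.1) (bl a d) (d >>> (14 * a)))

inductive T
  | l (d : ℕ) : T
  | n (x y : ℕ) (p q : T) : T

def push (cs x y : ℕ) : ℕ := cs * 1298074214633706907132624082305024 + (sp y + sp (1023 - x))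

def chk (a : ℕ) : T → ℕ → Bool
  | .l d, cs => leaf a cs d
  | .n x y p q, cs => Nat.blt x 1024 && Nat.blt y 1024 && chk a p (push cs x y) &&
      chk a q (push cs y x)

def Sat (w : V → ℝ) (cs : ℕ) : Prop := ∀ k, Good w (look cs k) 1 0

def Ex (a : ℕ) (w : V → ℝ) : Prop :=
  ∃ l : List (Finset V), l.length = a ∧ l.Pairwise Disjoint ∧ (∀ v, ∃ B ∈ l, v ∈ B) ∧
    ∀ B ∈ l, Cn B ∧ ∃ o ∈ B, Cn (B.erase o) ∧ ∀ C ∈ l, ∑ v ∈ B.erase o, w v ≤ ∑ v ∈ C, w v

def Ok (a cs : ℕ) : Prop := ∀ w : V → ℝ, (∀ v, 0 ≤ w v) → Sat w cs → Ex a w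

lemma cert_ok {w : V → ℝ} (hw : ∀ v, 0 ≤ w v) {cs : ℕ} (hs : Sat w cs) {r : ℝ} (k : ℕ) :
    ∀ d z t, Good w z t r → cert cs k d z t ≠ 0 → d ≠ 0 ∧ 0 ≤ r := by
  induction k with
  | zero =>
    intro d z t hg h
    simp only [cert, Bool.cond_eq_ite, Bool.and_eq_true, Nat.blt_eq, Nat.beq_eq] at h
    split_ifs at h with hh
    · exact ⟨h, hg.fin hw hh.1 hh.2⟩
    · exact absurd rfl h
  | succ k ih =>
    intro d z t hg h
    have := ih _ _ _ (by simpa using hg.add (hs (d / 16 % 32)) (d % 16)) h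
    exact ⟨by omega, this.2⟩

lemma inner_ok {w : V → ℝ} (hw : ∀ v, 0 ≤ w v) {cs : ℕ} (hs : Sat w cs) {Y : ℕ} (hY : Y < 1024)
    (l : List (ℕ × ℕ)) (hl : ∀ p ∈ l, p.1 < 1024) : ∀ d,
    inner cs (sp (1023 - Y)) (l.map fun p => sp p.1) d ≠ 0 →
      d ≠ 0 ∧ ∀ p ∈ l, ∑ v ∈ S Y, w v ≤ ∑ v ∈ S p.1, w v := by
  induction l with
  | nil => exact fun d h => ⟨h, by simp⟩
  | cons p l ih =>
    intro d h
    obtain ⟨h1, h2⟩ := ih (fun q hq => hl q (List.mem_cons_of_mem _ hq)) _ h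
    have g := (good_zero w 0 hw).add (good_pair w (hl p List.mem_cons_self) hY) (d / 16 % 16 + 1)
    simp only [zero_add, mul_one] at g
    obtain ⟨h3, h4⟩ := cert_ok hw hs _ _ _ _ g h1
    refine ⟨by omega, List.forall_mem_cons.2 ⟨?_, h2⟩⟩
    have : (0 : ℝ) < ((d / 16 % 16 + 1 : ℕ) : ℝ) := by positivity
    linarith [nonneg_of_mul_nonneg_right h4 this]

lemma outer_ok {w : V → ℝ} (hw : ∀ v, 0 ≤ w v) {cs : ℕ} (hs : Sat w cs)
    (P : List (ℕ × ℕ)) (hP : ∀ p ∈ P, p.1 < 1024) (l : List (ℕ × ℕ)) (hl : ∀ p ∈ l, p.1 < 1024) :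
    ∀ d, outer cs (P.map fun p => sp p.1) l d ≠ 0 →
      d ≠ 0 ∧ ∀ q ∈ l, ∀ p ∈ P, ∑ v ∈ S (q.1 - 2 ^ q.2), w v ≤ ∑ v ∈ S p.1, w v := by
  induction l with
  | nil => exact fun d h => ⟨h, by simp⟩
  | cons q l ih =>
    intro d h
    obtain ⟨h1, h2⟩ := ih (fun q hq => hl q (List.mem_cons_of_mem _ hq)) _ h
    simp only [Bool.cond_eq_ite, Nat.beq_eq] at h1
    split_ifs at h1 with hh
    · refine ⟨h1, List.forall_mem_cons.2 ⟨fun p _ => ?_, h2⟩⟩
      have : S 0 = ∅ := by simp [S]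
      rw [hh, Nat.sub_self, this, sum_empty]
      exact sum_nonneg fun v _ => hw v
    · have := inner_ok hw hs (lt_of_le_of_lt (Nat.sub_le _ _) (hl q List.mem_cons_self)) P hP d h1
      exact ⟨this.1, List.forall_mem_cons.2 ⟨this.2, h2⟩⟩

lemma part_ok (l : List (ℕ × ℕ)) : ∀ m, part l m = true →
    (∀ p ∈ l, Disjoint (S m) (S p.1)) ∧ (l.map fun p => S p.1).Pairwise Disjoint ∧
    (∀ v, v ∈ S m ∨ ∃ p ∈ l, v ∈ S p.1) ∧ ∀ p ∈ l, p.1 < 1024 ∧ p.2 < 10 ∧ CT.testBit p.1 = true ∧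
      p.1.testBit p.2 = true ∧ CT.testBit (p.1 - 2 ^ p.2) = true := by
  induction l with
  | nil =>
    intro m h
    obtain rfl : m = 1023 := by simpa [part] using h
    refine ⟨by simp, by simp, fun v => Or.inl ?_, by simp⟩
    revert v; decide
  | cons p l ih =>
    intro m h
    simp only [part, Bool.and_eq_true, Nat.blt_eq, Nat.beq_eq] at h
    obtain ⟨⟨⟨⟨⟨⟨a1, a2⟩, a3⟩, a4⟩, a5⟩, a6⟩, a7⟩ := h
    obtain ⟨b1, b2, b3, b4⟩ := ih _ a7
    have e : S (m ||| p.1) = S m ∪ S p.1 := by ext v; simp [mem_S]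
    simp only [e, disjoint_union_left, mem_union] at b1 b3
    refine ⟨List.forall_mem_cons.2 ⟨disjoint_left.2 fun v h1 h2 => ?_, fun q hq => (b1 q hq).1⟩,
      ?_, fun v => ?_, List.forall_mem_cons.2 ⟨⟨a2, a3, a4, a5, a6⟩, b4⟩⟩
    · have := congrArg (fun x => x.testBit v) a1
      simp [mem_S.1 h1, mem_S.1 h2] at this
    · rw [List.map_cons, List.pairwise_cons]
      refine ⟨fun B hB => ?_, b2⟩
      obtain ⟨q, hq, rfl⟩ := List.mem_map.1 hB
      exact (b1 q hq).2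
    · rcases b3 v with (h | h) | ⟨q, hq, h⟩
      · exact Or.inl h
      · exact Or.inr ⟨p, List.mem_cons_self, h⟩
      · exact Or.inr ⟨q, List.mem_cons_of_mem _ hq, h⟩

lemma bl_len (a : ℕ) : ∀ d, (bl a d).length = a := by
  induction a with
  | zero => intro d; rfl
  | succ a ih => intro d; simp [bl, ih]

lemma leaf_ok {a cs d : ℕ} (h : leaf a cs d = true) : Ok a cs := by
  intro w hw hs
  simp only [leaf, Bool.and_eq_true, Nat.blt_eq] at h
  obtain ⟨-, b2, b3, b4⟩ := part_ok _ _ h.1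
  have h5 := (outer_ok hw hs _ (fun p hp => (b4 p hp).1) _ (fun p hp => (b4 p hp).1) _ h.2.ne').2
  refine ⟨_, by simp [bl_len], b2, fun v => ?_, fun B hB => ?_⟩
  · rcases b3 v with h | ⟨p, hp, h⟩
    · simp [S] at h
    · exact ⟨_, List.mem_map_of_mem hp, h⟩
  · obtain ⟨q, hq, rfl⟩ := List.mem_map.1 hB
    obtain ⟨c1, c2, c3, c4, c5⟩ := b4 q hq
    have e := sub_pow q.1 c1 ⟨q.2, c2⟩ c4
    refine ⟨ct _ c1 c3, ⟨q.2, c2⟩, mem_S.2 c4, e ▸ ct _ (lt_of_le_of_lt (Nat.sub_le _ _) c1) c5, fun C hC => ?_⟩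
    obtain ⟨p, hp, rfl⟩ := List.mem_map.1 hC
    exact e ▸ h5 q hq p hp

lemma sat_push {w : V → ℝ} {cs x y : ℕ} (hs : Sat w cs) (hx : x < 1024) (hy : y < 1024)
    (h : ∑ v ∈ S y, w v ≤ ∑ v ∈ S x, w v) : Sat w (push cs x y) := by
  have hb : ∀ m, sp m ≤ H0 := fun m => Nat.and_le_right
  have h1 := hb y
  have h2 := hb (1023 - x)
  unfold H0 at h1 h2
  intro k
  cases k with
  | zero =>
    have : look (push cs x y) 0 = sp y + sp (1023 - x) := by
      simp only [look, push, mul_zero, Nat.shiftRight_zero]; omega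
    rw [this]
    obtain ⟨c, g1, g2, g3⟩ := good_pair w hy hx
    exact ⟨c, g1, g2, by linarith⟩
  | succ k =>
    have : look (push cs x y) (k + 1) = look cs k := by
      have : push cs x y >>> 110 = cs := by
        simp only [push, Nat.shiftRight_eq_div_pow]; omega
      rw [look, mul_add, add_comm, mul_one, Nat.shiftRight_add, this, look]
    rw [this]
    exact hs k

lemma node_ok {a cs : ℕ} (x y : ℕ) (hx : x < 1024) (hy : y < 1024) (h1 : Ok a (push cs x y))
    (h2 : Ok a (push cs y x)) : Ok a cs := fun w hw hs =>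
  (le_total (∑ v ∈ S y, w v) (∑ v ∈ S x, w v)).elim (fun h => h1 w hw (sat_push hs hx hy h))
    (fun h => h2 w hw (sat_push hs hy hx h))

lemma chk_ok {a : ℕ} (t : T) : ∀ cs, chk a t cs = true → Ok a cs := by
  induction t with
  | l d => exact fun cs h => leaf_ok h
  | n x y p q ih1 ih2 =>
    intro cs h
    simp only [chk, Bool.and_eq_true, Nat.blt_eq] at h
    exact node_ok x y h.1.1.1 h.1.1.2 (ih1 _ h.1.2) (ih2 _ h.2)

end Pool.Agent.H.MP_7d34d8_co
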