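import Pool.Agent.H.MP_7d34d8_co.A

set_option autoImplicit false

namespace Pool.Agent.H.MP_7d34d8_co

noncomputable def fo {α : Type} (x : ℕ) (f : ℕ → α) : α :=
  Nat.rec (motive := fun _ => α) (f (nat_lit 0)) (fun n _ => f (Nat.succ n)) x

lemma fo_eq {α : Type} (x : ℕ) (f : ℕ → α) : fo x f = f x := by cases x <;> rfl

def sp' (m : ℕ) : ℕ := Nat.land (Nat.mul m (nat_lit 1239150146850664126585242625)) (nat_lit 634134936313486520338360567809)

def fin' (d z t : ℕ) : ℕ :=
  bif Nat.blt t (nat_lit 1024) && Nat.beq (Nat.land (Nat.add z (Nat.mul (Nat.sub (nat_lit 1024) t) H0)) H1) H1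
    then d else (nat_lit 0)

def look' (cs k : ℕ) : ℕ := Nat.mod (Nat.shiftRight cs (Nat.mul (nat_lit 110) k)) (nat_lit 1298074214633706907132624082305024)

lemma look_eq (cs k : ℕ) : look' cs k = look cs k := by
  unfold look' look
  rfl

noncomputable def cert' (cs k : ℕ) : ℕ → ℕ → ℕ → ℕ :=
  Nat.rec (motive := fun _ => ℕ → ℕ → ℕ → ℕ) fin'
    (fun _ ih d z t => fo (Nat.div d (nat_lit 512)) fun e => fo (Nat.mod d (nat_lit 16)) fun u =>
      ih e (Nat.add z (Nat.mul u (look' cs (Nat.mod (Nat.div d (nat_lit 16)) (nat_lit 32))))) (Nat.add t u)) k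

lemma cert_eq (cs k : ℕ) : ∀ d z t, cert' cs k d z t = cert cs k d z t := by
  induction k with
  | zero =>
    intro d z t
    have : cert' cs 0 d z t = fin' d z t := rfl
    rw [this, cert, fin']
    rfl
  | succ k ih =>
    intro d z t
    have : cert' cs (k + 1) d z t = fo (d / 512) fun e => fo (d % 16) fun u =>
      cert' cs k e (z + u * look' cs (d / 16 % 32)) (t + u) := rfl
    rw [this, fo_eq, fo_eq, cert, look_eq]
    exact ih _ _ _

noncomputable def inner' (cs y : ℕ) (l : List ℕ) : ℕ → ℕ :=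
  List.rec (motive := fun _ => ℕ → ℕ) (fun d => d)
    (fun x _ ih d => fo (Nat.succ (Nat.mod (Nat.div d (nat_lit 16)) (nat_lit 16))) fun u =>
      fo (Nat.div d (nat_lit 256)) fun e =>
        fo (cert' cs (Nat.mod d (nat_lit 16)) e (Nat.mul u (Nat.add x y)) u) ih) l

lemma inner_eq (cs y : ℕ) (l : List ℕ) : ∀ d, inner' cs y l d = inner cs y l d := by
  induction l with
  | nil => intro d; rfl
  | cons x l ih =>
    intro d
    have : inner' cs y (x :: l) d = fo (d / 16 % 16 + 1) fun u => fo (d / 256) fun e =>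
      fo (cert' cs (d % 16) e (u * (x + y)) u) (inner' cs y l) := rfl
    rw [this, fo_eq, fo_eq, fo_eq, cert_eq]
    exact ih _

noncomputable def outer' (cs : ℕ) (P : List ℕ) (l : List (ℕ × ℕ)) : ℕ → ℕ :=
  List.rec (motive := fun _ => ℕ → ℕ) (fun d => d)
    (fun p _ ih d => Bool.rec
      (fo (sp' (Nat.sub (nat_lit 1023) (Nat.sub p.1 (Nat.pow (nat_lit 2) p.2)))) fun y =>
        fo (inner' cs y P d) ih) (ih d) (Nat.beq p.1 (Nat.pow (nat_lit 2) p.2))) l

lemma outer_eq (cs : ℕ) (P : List ℕ) (l : List (ℕ × ℕ)) :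
    ∀ d, outer' cs P l d = outer cs P l d := by
  induction l with
  | nil => intro d; rfl
  | cons p l ih =>
    intro d
    have : outer' cs P (p :: l) d = Bool.rec (motive := fun _ => ℕ)
      (fo (sp (1023 - (p.1 - 2 ^ p.2))) fun y => fo (inner' cs y P d) (outer' cs P l))
      (outer' cs P l d) (Nat.beq p.1 (2 ^ p.2)) := rfl
    rw [this, outer, fo_eq, fo_eq, inner_eq]
    cases Nat.beq p.1 (2 ^ p.2)
    · exact ih _
    · exact ih _

def tb (m i : ℕ) : Bool := Nat.beq (Nat.mod (Nat.shiftRight m i) (nat_lit 2)) (nat_lit 1)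

lemma tb_eq (m i : ℕ) : tb m i = m.testBit i := by
  rw [Nat.testBit_eq_decide_div_mod_eq, ← Nat.shiftRight_eq_div_pow, Bool.eq_iff_iff, tb,
    Nat.beq_eq, decide_eq_true_eq]
  rfl

noncomputable def part' (l : List (ℕ × ℕ)) : ℕ → Bool :=
  List.rec (motive := fun _ => ℕ → Bool) (fun m => Nat.beq m (nat_lit 1023))
    (fun p _ ih m => Nat.beq (Nat.land m p.1) (nat_lit 0) && Nat.blt p.1 (nat_lit 1024) &&
      Nat.blt p.2 (nat_lit 10) && tb CT p.1 && tb p.1 p.2 &&
      tb CT (Nat.sub p.1 (Nat.pow (nat_lit 2) p.2)) && fo (Nat.lor m p.1) ih) l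

lemma part_eq (l : List (ℕ × ℕ)) : ∀ m, part' l m = part l m := by
  induction l with
  | nil => intro m; rfl
  | cons p l ih =>
    intro m
    show (_ && _ && _ && tb _ _ && tb _ _ && tb _ _ && fo _ (part' l)) = _
    rw [fo_eq, tb_eq, tb_eq, tb_eq, ih]
    rfl

noncomputable def fbl (a : ℕ) : ℕ → (List (ℕ × ℕ) → List ℕ → Bool) → Bool :=
  Nat.rec (motive := fun _ => ℕ → (List (ℕ × ℕ) → List ℕ → Bool) → Bool) (fun _ k => k [] [])
    (fun _ ih d k => fo (Nat.mod d (nat_lit 1024)) fun b =>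
      fo (Nat.mod (Nat.div d (nat_lit 1024)) (nat_lit 16)) fun o => fo (sp' b) fun s =>
        fo (Nat.div d (nat_lit 16384)) fun e => ih e fun l P => k ((b, o) :: l) (s :: P)) a

lemma fbl_eq (a : ℕ) : ∀ d k, fbl a d k = k (bl a d) ((bl a d).map fun p => sp p.1) := by
  induction a with
  | zero => intro d k; rfl
  | succ a ih =>
    intro d k
    have : fbl (a + 1) d k = fo (d % 1024) fun b => fo (d / 1024 % 16) fun o => fo (sp b) fun s =>
      fo (d / 16384) fun e => fbl a e fun l P => k ((b, o) :: l) (s :: P) := rfl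
    rw [this, fo_eq, fo_eq, fo_eq, fo_eq]
    exact ih _ _

noncomputable def leaf' (a cs d : ℕ) : Bool :=
  fbl a d fun l P => part' l (nat_lit 0) && Nat.blt (nat_lit 0)
    (fo (Nat.shiftRight d (Nat.mul (nat_lit 14) a)) (outer' cs P l))

lemma leaf_eq (a cs d : ℕ) : leaf' a cs d = leaf a cs d := by
  rw [leaf', fbl_eq, fo_eq, part_eq, outer_eq]
  rfl

def push' (cs x y : ℕ) : ℕ :=
  Nat.add (Nat.mul cs (nat_lit 1298074214633706907132624082305024)) (Nat.add (sp' y) (sp' (Nat.sub (nat_lit 1023) x)))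

noncomputable def chk' (a : ℕ) (t : T) : ℕ → Bool :=
  T.rec (motive := fun _ => ℕ → Bool) (fun d cs => leaf' a cs d)
    (fun x y _ _ p q cs => Nat.blt x (nat_lit 1024) && Nat.blt y (nat_lit 1024) &&
      fo (push' cs x y) p && fo (push' cs y x) q) t

lemma chk_eq (a : ℕ) (t : T) : ∀ cs, chk' a t cs = chk a t cs := by
  induction t with
  | l d => exact fun cs => leaf_eq a cs d
  | n x y p q ih1 ih2 =>
    intro cs
    show (_ && _ && fo _ (chk' a p) && fo _ (chk' a q)) = _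
    rw [fo_eq, fo_eq, ih1, ih2]
    rfl

lemma ok_of {a : ℕ} (t : T) (cs : ℕ) (h : chk' a t cs = true) : Ok a cs :=
  chk_ok t cs (chk_eq a t cs ▸ h)

end Pool.Agent.H.MP_7d34d8_co
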