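import Pool.Agent.H.MP_7d34d8_co.C0
import Pool.Agent.H.MP_7d34d8_co.C1
import Pool.Agent.H.MP_7d34d8_co.C2
import Pool.Agent.H.MP_7d34d8_co.C3
import Pool.Agent.H.MP_7d34d8_co.C4
import Pool.Agent.H.MP_7d34d8_co.C5
import Pool.Agent.H.MP_7d34d8_co.C6
import Pool.Agent.H.MP_7d34d8_co.C7
import Pool.Agent.H.MP_7d34d8_co.C8


set_option autoImplicit false

namespace Pool.Agent.H.MP_7d34d8_co

theorem top2 : Ok 2 (push (push 0 1 2) 4 8) :=
  c0

theorem top3 : Ok 3 (push (push 0 1 2) 4 8) :=
  (node_ok 513 152 (by decide) (by decide) c1 (node_ok 326 136 (by decide) (by decide) c2 c3))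

theorem top4 : Ok 4 (push (push 0 1 2) 4 8) :=
  (node_ok 4 144 (by decide) (by decide) (node_ok 136 544 (by decide) (by decide) (node_ok 8 513 (by decide) (by decide) c4 (node_ok 40 274 (by decide) (by decide) (node_ok 386 528 (by decide) (by decide) c5 c6) (node_ok 258 528 (by decide) (by decide) (node_ok 136 2 (by decide) (by decide) (node_ok 136 528 (by decide) (by decide) (node_ok 529 96 (by decide) (by decide) c7 c8) c9) c10) c11))) (node_ok 136 274 (by decide) (by decide) c12 (node_ok 258 208 (by decide) (by decide) (node_ok 513 96 (by decide) (by decide) (node_ok 258 96 (by decide) (by decide) c13 c14) c15) (node_ok 40 640 (by decide) (by decide) c16 (node_ok 168 258 (by decide) (by decide) c17 c18))))) (node_ok 4 513 (by decide) (by decide) (node_ok 274 544 (by decide) (by decide) (node_ok 136 544 (by decide) (by decide) c19 c20) c21) (node_ok 274 512 (by decide) (by decide) (node_ok 136 258 (by decide) (by decide) (node_ok 100 258 (by decide) (by decide) c22 c23) (node_ok 108 512 (by decide) (by decide) (node_ok 144 104 (by decide) (by decide) c24 (node_ok 258 144 (by decide) (by decide)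 (node_ok 104 1 (by decide) (by decide) c25 c26) c27)) c28)) (node_ok 68 290 (by decide) (by decide) c29 (node_ok 40 322 (by decide) (by decide) c30 c31)))))

theorem top5 : Ok 5 (push (push 0 1 2) 4 8) :=
  (node_ok 258 512 (by decide) (by decide) (node_ok 40 2 (by decide) (by decide) (node_ok 4 144 (by decide) (by decide) (node_ok 144 320 (by decide) (by decide) (node_ok 258 96 (by decide) (by decide) c32 (node_ok 8 513 (by decide) (by decide) c33 c34)) (node_ok 144 1 (by decide) (by decide) (node_ok 513 40 (by decide) (by decide) c35 c36) (node_ok 4 40 (by decide) (by decide) c37 (node_ok 258 64 (by decide) (by decide) c38 c39)))) (node_ok 258 16 (by decide) (by decide) (node_ok 68 2 (by decide) (by decide) (node_ok 40 512 (by decide) (by decide) (node_ok 258 128 (by decide) (by decide) (node_ok 513 128 (by decide) (by decide) c40 c41) c42) c43) c44) (node_ok 258 128 (by decide) (by decide) c45 c46))) (node_ok 392 96 (by decide) (by decide) (node_ok 528 136 (by decide) (by decide) (node_ok 2 136 (by decide) (by decide) c47 c48) (node_ok 68 544 (by decide) (by decide) c49 c50)) (node_ok 2 152 (by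 decide) (by decide) c51 (node_ok 544 136 (by decide) (by decide) c52 c53)))) (node_ok 40 1 (by decide) (by decide) (node_ok 1 144 (by decide) (by decide) c54 (node_ok 1 512 (by decide) (by decide) (node_ok 576 128 (by decide) (by decide) (node_ok 274 128 (by decide) (by decide) c55 c56) c57) (node_ok 274 128 (by decide) (by decide) (node_ok 1 258 (by decide) (by decide) c58 (node_ok 258 68 (by decide) (by decide) c59 c60)) c61))) (node_ok 40 144 (by decide) (by decide) c62 (node_ok 68 258 (by decide) (by decide) (node_ok 40 258 (by decide) (by decide) c63 c64) c65))))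

theorem top6 : Ok 6 (push (push 0 1 2) 4 8) :=
  (node_ok 258 512 (by decide) (by decide) (node_ok 4 2 (by decide) (by decide) (node_ok 2 64 (by decide) (by decide) (node_ok 2 144 (by decide) (by decide) c66 (node_ok 296 16 (by decide) (by decide) (node_ok 40 256 (by decide) (by decide) (node_ok 2 32 (by decide) (by decide) (node_ok 1 256 (by decide) (by decide) (node_ok 2 256 (by decide) (by decide) c67 c68) c69) c70) c71) (node_ok 576 40 (by decide) (by decide) c72 (node_ok 544 192 (by decide) (by decide) c73 c74)))) (node_ok 40 512 (by decide) (by decide) (node_ok 528 64 (by decide) (by decide) (node_ok 16 1 (by decide) (by decide) (node_ok 16 512 (by decide) (by decide) (node_ok 132 32 (by decide) (by decide) (node_ok 64 1 (by decide) (by decide) (node_ok 258 128 (by decide) (by decide) (node_ok 64 8 (by decide) (by decide) c75 c76) c77) c78) c79) c80) (node_ok 40 16 (by decide) (by decide) (node_ok 4 16 (by decide) (by decide) (node_ok 192 32 (by decide) (by decide) c81 c82) c83) c84)) (node_ok 1 256 (by decide) (by decide) (node_ok 528 256 (by decide) (by decide) (node_ok 528 8 (by decide) (by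 decide) (node_ok 40 128 (by decide) (by decide) c85 c86) c87) c88) (node_ok 1 8 (by decide) (by decide) c89 (node_ok 1 32 (by decide) (by decide) c90 c91)))) c92)) (node_ok 40 16 (by decide) (by decide) (node_ok 40 128 (by decide) (by decide) (node_ok 384 8 (by decide) (by decide) (node_ok 68 16 (by decide) (by decide) c93 c94) c95) c96) (node_ok 544 136 (by decide) (by decide) (node_ok 2 40 (by decide) (by decide) c97 c98) c99))) (node_ok 128 258 (by decide) (by decide) (node_ok 40 258 (by decide) (by decide) (node_ok 1 258 (by decide) (by decide) (node_ok 274 32 (by decide) (by decide) c100 c101) c102) c103) (node_ok 40 2 (by decide) (by decide) (node_ok 1 256 (by decide) (by decide) (node_ok 2 128 (by decide) (by decide) (node_ok 136 256 (by decide) (by decide) (node_ok 2 64 (by decide) (by decide) c104 (node_ok 258 32 (by decide) (by decide) c105 c106)) c107) (node_ok 40 16 (by decide) (by decide) (node_ok 2 4 (by decide) (by decide) c108 (node_ok 1 8 (by decide) (by decide) c109 c110)) c111)) (node_ok 1 64 (by decide) (by decide) c112 c113)) c114)))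

theorem top7 : Ok 7 (push (push 0 1 2) 4 8) :=
  (node_ok 16 32 (by decide) (by decide) (node_ok 64 2 (by decide) (by decide) (node_ok 128 512 (by decide) (by decide) (node_ok 40 512 (by decide) (by decide) (node_ok 1 32 (by decide) (by decide) (node_ok 64 8 (by decide) (by decide) c115 c116) c117) c118) (node_ok 258 8 (by decide) (by decide) (node_ok 16 2 (by decide) (by decide) c119 c120) c121)) (node_ok 2 8 (by decide) (by decide) (node_ok 256 32 (by decide) (by decide) (node_ok 16 64 (by decide) (by decide) c122 c123) c124) c125)) (node_ok 512 128 (by decide) (by decide) (node_ok 64 16 (by decide) (by decide) (node_ok 144 8 (by decide) (by decide) (node_ok 1 16 (by decide) (by decide) (node_ok 258 128 (by decide) (by decide) (node_ok 4 512 (by decide) (by decide) c126 c127) c128) c129) c130) c131) (node_ok 16 8 (by decide) (by decide) c132 (node_ok 64 2 (by decide) (by decide) c133 c134))))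

theorem top8 : Ok 8 (push (push 0 1 2) 4 8) :=
  (node_ok 16 2 (by decide) (by decide) (node_ok 64 128 (by decide) (by decide) c135 c136) c137)

theorem top9 : Ok 9 (push (push 0 1 2) 4 8) :=
  c138

end Pool.Agent.H.MP_7d34d8_co
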